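import Mathlib
import Pool.Agent.U735.SO.Stm

set_option autoImplicit false

/-!
Project SO, package LA: the Casimir element of the commutant of a semisimple representation.
-/

namespace Pool.Agent.U603.SO

open TensorProduct

universe w v₀ x

section

lemma sumComp {R : Type*} [CommRing R] {A B C : Type*} [AddCommGroup A] [Module R A]
    [AddCommGroup B] [Module R B] [AddCommGroup C] [Module R C] {ι : Type*} (t : Finset ι)
    (f : ι → (B →ₗ[R] C)) (a : A →ₗ[R] B) : (∑ i ∈ t, f i) ∘ₗ a = ∑ i ∈ t, f i ∘ₗ a := by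
  ext x
  simp [LinearMap.sum_apply]

lemma compSum {R : Type*} [CommRing R] {A B C : Type*} [AddCommGroup A] [Module R A]
    [AddCommGroup B] [Module R B] [AddCommGroup C] [Module R C] {ι : Type*} (t : Finset ι)
    (f : ι → (A →ₗ[R] B)) (a : B →ₗ[R] C) : a ∘ₗ (∑ i ∈ t, f i) = ∑ i ∈ t, a ∘ₗ f i := by
  ext x
  simp [LinearMap.sum_apply]

variable {E : Type w} [Field E] {Γ : Type v₀} {V : Type w} [AddCommGroup V] [Module E V]

/-- the commutant -/
def Cm (ρ : Γ → Module.End E V) (d : Module.End E V) : Prop := ∀ s, ρ s ∘ₗ d = d ∘ₗ ρ s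

variable {ρ : Γ → Module.End E V}

lemma Cm.apply {d : Module.End E V} (h : Cm ρ d) (s : Γ) (x : V) : ρ s (d x) = d (ρ s x) :=
  LinearMap.congr_fun (h s) x

lemma Cm.comp {a b : Module.End E V} (ha : Cm ρ a) (hb : Cm ρ b) : Cm ρ (a ∘ₗ b) := by
  intro s
  ext x
  simp only [LinearMap.comp_apply]
  rw [ha.apply, hb.apply]

lemma Cm.add {a b : Module.End E V} (ha : Cm ρ a) (hb : Cm ρ b) : Cm ρ (a + b) := by
  intro s
  ext x
  simp only [LinearMap.comp_apply, LinearMap.add_apply, map_add]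
  rw [ha.apply, hb.apply]

lemma Cm.sub {a b : Module.End E V} (ha : Cm ρ a) (hb : Cm ρ b) : Cm ρ (a - b) := by
  intro s
  ext x
  simp only [LinearMap.comp_apply, LinearMap.sub_apply, map_sub]
  rw [ha.apply, hb.apply]

lemma Cm.zero : Cm ρ (0 : Module.End E V) := by
  intro s
  ext x
  simp

lemma Cm.one : Cm ρ (1 : Module.End E V) := by
  intro s
  ext x
  simp

lemma Cm.smul {a : Module.End E V} (c : E) (ha : Cm ρ a) : Cm ρ (c • a) := by
  intro s
  ext x
  simp only [LinearMap.comp_apply, LinearMap.smul_apply, map_smul]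
  rw [ha.apply]

lemma Cm.sum {ι : Type*} (t : Finset ι) (f : ι → Module.End E V) (h : ∀ i ∈ t, Cm ρ (f i)) :
    Cm ρ (∑ i ∈ t, f i) := by
  classical
  induction t using Finset.induction_on with
  | empty => simpa using Cm.zero
  | insert a t ha ih =>
    rw [Finset.sum_insert ha]
    exact (h a (Finset.mem_insert_self _ _)).add (ih fun i hi => h i (Finset.mem_insert_of_mem hi))

lemma tr_comm (a b : Module.End E V) : LinearMap.trace E V (a ∘ₗ b) = LinearMap.trace E V (b ∘ₗ a) :=
  LinearMap.trace_mul_comm E a b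

/-- dual bases of the commutant -/
structure DB (ρ : Γ → Module.End E V) (n : ℕ) (g g' : Fin n → Module.End E V) : Prop where
  c1 : ∀ i, Cm ρ (g i)
  c2 : ∀ i, Cm ρ (g' i)
  d : ∀ d : Module.End E V, Cm ρ d → ∑ i, LinearMap.trace E V (g' i ∘ₗ d) • g i = d

variable {n : ℕ} {g g' : Fin n → Module.End E V}

lemma DB.zero_of (h : DB ρ n g g') (y : Module.End E V) (hy : Cm ρ y)
    (h0 : ∀ a, Cm ρ a → LinearMap.trace E V (y ∘ₗ a) = 0) : y = 0 := by
  rw [← h.d y hy]
  apply Finset.sum_eq_zero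
  intro i _
  rw [tr_comm, h0 _ (h.c2 i), zero_smul]

lemma DB.dual (h : DB ρ n g g') (y : Module.End E V) (hy : Cm ρ y) :
    ∑ i, LinearMap.trace E V (y ∘ₗ g i) • g' i = y := by
  rw [← sub_eq_zero]
  apply h.zero_of _ ((Cm.sum _ _ fun i _ => (h.c2 i).smul _).sub hy)
  intro a ha
  have h1 := h.d a ha
  have e1 : (∑ i, LinearMap.trace E V (y ∘ₗ g i) • g' i - y) ∘ₗ a =
      ∑ i, LinearMap.trace E V (y ∘ₗ g i) • (g' i ∘ₗ a) - y ∘ₗ a := by
    rw [LinearMap.sub_comp, sumComp]
    simp only [LinearMap.smul_comp]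
  rw [e1, map_sub, map_sum]
  simp only [map_smul, smul_eq_mul]
  have e2 : LinearMap.trace E V (y ∘ₗ a) =
      ∑ i, LinearMap.trace E V (y ∘ₗ g i) * LinearMap.trace E V (g' i ∘ₗ a) := by
    conv_lhs => rw [← h1]
    rw [compSum, map_sum]
    apply Finset.sum_congr rfl
    intro i _
    rw [LinearMap.comp_smul, map_smul, smul_eq_mul, mul_comm]
  rw [e2, sub_self]

/-- the Casimir identity -/
lemma DB.casimir (h : DB ρ n g g') {X : Type x} [AddCommGroup X] [Module E X]
    (β : Module.End E V →ₗ[E] Module.End E V →ₗ[E] X) (d : Module.End E V) (hd : Cm ρ d) :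
    ∑ i, β (d ∘ₗ g i) (g' i) = ∑ i, β (g i) (g' i ∘ₗ d) := by
  have e1 : ∀ i, β (d ∘ₗ g i) (g' i) =
      ∑ j, LinearMap.trace E V (g' j ∘ₗ (d ∘ₗ g i)) • β (g j) (g' i) := by
    intro i
    conv_lhs => rw [← h.d (d ∘ₗ g i) (hd.comp (h.c1 i))]
    rw [map_sum, LinearMap.sum_apply]
    apply Finset.sum_congr rfl
    intro j _
    rw [map_smul, LinearMap.smul_apply]
  have e2 : ∀ j, β (g j) (g' j ∘ₗ d) =
      ∑ i, LinearMap.trace E V ((g' j ∘ₗ d) ∘ₗ g i) • β (g j) (g' i) := by
    intro j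
    conv_lhs => rw [← h.dual (g' j ∘ₗ d) ((h.c2 j).comp hd)]
    rw [map_sum]
    apply Finset.sum_congr rfl
    intro i _
    rw [map_smul]
  rw [Finset.sum_congr rfl fun i _ => e1 i, Finset.sum_congr rfl fun j _ => e2 j,
    Finset.sum_comm]
  rfl

/-- the Casimir element -/
def cas (g g' : Fin n → Module.End E V) : Module.End E V := ∑ i, g i ∘ₗ g' i

lemma DB.cas_cm (h : DB ρ n g g') : Cm ρ (cas g g') :=
  Cm.sum _ _ fun i _ => (h.c1 i).comp (h.c2 i)

lemma DB.central (h : DB ρ n g g') (d : Module.End E V) (hd : Cm ρ d) :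
    d ∘ₗ cas g g' = cas g g' ∘ₗ d := by
  have h1 := h.casimir (LinearMap.mul E (Module.End E V)) d hd
  have e1 : d ∘ₗ cas g g' = ∑ i, LinearMap.mul E (Module.End E V) (d ∘ₗ g i) (g' i) := by
    unfold cas
    rw [compSum]
    rfl
  have e2 : cas g g' ∘ₗ d = ∑ i, LinearMap.mul E (Module.End E V) (g i) (g' i ∘ₗ d) := by
    unfold cas
    rw [sumComp]
    rfl
  rw [e1, e2, h1]

/-- the semisimplicity hypothesis -/
def Ss (ρ : Γ → Module.End E V) : Prop :=
  ∀ U : Submodule E V, (∀ s, ∀ x ∈ U, ρ s x ∈ U) →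
    ∃ U' : Submodule E V, (∀ s, ∀ x ∈ U', ρ s x ∈ U') ∧ IsCompl U U'

/-- projections -/
lemma proj_cm {U U' : Submodule E V} (hU : ∀ s, ∀ x ∈ U, ρ s x ∈ U)
    (hU' : ∀ s, ∀ x ∈ U', ρ s x ∈ U') (hc : IsCompl U U') : Cm ρ (U.projection U' hc) := by
  intro s
  ext x
  simp only [LinearMap.comp_apply]
  have h1 : U.projection U' hc x ∈ U := Submodule.projection_apply_mem hc x
  have h2 : x - U.projection U' hc x ∈ U' := Submodule.sub_projection_mem hc x
  have h3 : ρ s x = ρ s (U.projection U' hc x) + ρ s (x - U.projection U' hc x) := by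
    rw [← map_add, add_sub_cancel]
  rw [h3, map_add, Submodule.projection_apply_of_mem_left hc (hU s _ h1),
    Submodule.projection_apply_of_mem_right hc (hU' s _ h2), add_zero]

lemma DB.injective [CharZero E] [Module.Finite E V] (h : DB ρ n g g') (hs : Ss ρ) :
    LinearMap.ker (cas g g') = ⊥ := by
  have hst : ∀ s, ∀ x ∈ LinearMap.ker (cas g g'), ρ s x ∈ LinearMap.ker (cas g g') := by
    intro s x hx
    rw [LinearMap.mem_ker] at hx ⊢
    rw [← h.cas_cm.apply, hx, map_zero]
  obtain ⟨U', hU', hc⟩ := hs _ hst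
  set q := (LinearMap.ker (cas g g')).projection U' hc with hq
  have hqc : Cm ρ q := proj_cm hst hU' hc
  have huq : cas g g' ∘ₗ q = 0 := by
    ext x
    exact LinearMap.mem_ker.1 (Submodule.projection_apply_mem hc x)
  have hqq : q ∘ₗ q = q := by
    ext x
    exact Submodule.projection_apply_of_mem_left hc (Submodule.projection_apply_mem hc x)
  let T : Module.End E V →ₗ[E] Module.End E V :=
    ∑ i, (LinearMap.trace E V ∘ₗ LinearMap.mulLeft E (g' i)).smulRight (q ∘ₗ g i)
  have hTa : ∀ d, T d = ∑ i, LinearMap.trace E V (g' i ∘ₗ d) • (q ∘ₗ g i) := by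
    intro d
    simp only [T, LinearMap.sum_apply, LinearMap.smulRight_apply, LinearMap.comp_apply,
      LinearMap.mulLeft_apply]
    rfl
  have hTD : ∀ d, Cm ρ d → T d = q ∘ₗ d := by
    intro d hd
    rw [hTa]
    conv_rhs => rw [← h.d d hd]
    rw [compSum]
    apply Finset.sum_congr rfl
    intro i _
    rw [LinearMap.comp_smul]
  have hTc : ∀ d, Cm ρ (T d) := by
    intro d
    rw [hTa]
    exact Cm.sum _ _ fun i _ => (hqc.comp (h.c1 i)).smul _
  have hTq : ∀ d, q ∘ₗ T d = T d := by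
    intro d
    rw [hTa, compSum]
    apply Finset.sum_congr rfl
    intro i _
    rw [LinearMap.comp_smul, ← LinearMap.comp_assoc, hqq]
  have hTT : IsIdempotentElem T := by
    change T ∘ₗ T = T
    apply LinearMap.ext
    intro d
    rw [LinearMap.comp_apply, hTD _ (hTc d), hTq]
  have htr : LinearMap.trace E _ T = 0 := by
    simp only [T]
    rw [map_sum]
    have e1 : ∀ i, LinearMap.trace E _ ((LinearMap.trace E V ∘ₗ
        LinearMap.mulLeft E (g' i)).smulRight (q ∘ₗ g i)) =
        LinearMap.trace E V (g i ∘ₗ g' i ∘ₗ q) := by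
      intro i
      rw [LinearMap.trace_smulRight]
      simp only [LinearMap.comp_apply, LinearMap.mulLeft_apply]
      change LinearMap.trace E V (g' i ∘ₗ (q ∘ₗ g i)) = _
      rw [← LinearMap.comp_assoc, tr_comm]
    rw [Finset.sum_congr rfl fun i _ => e1 i, ← map_sum]
    have e2 : ∑ i, g i ∘ₗ g' i ∘ₗ q = cas g g' ∘ₗ q := by
      unfold cas
      rw [sumComp]
      rfl
    rw [e2, huq, map_zero]
  have hT0 : T = 0 := LinearMap.IsIdempotentElem.eq_zero_of_trace_eq_zero hTT htr
  have hq0 : q = 0 := by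
    have h1 := hTD 1 Cm.one
    rw [hT0] at h1
    have : q ∘ₗ (1 : Module.End E V) = q := LinearMap.comp_id q
    rw [this] at h1
    exact h1.symm
  rw [eq_bot_iff]
  intro x hx
  have h1 : q x = x := Submodule.projection_apply_of_mem_left hc hx
  rw [hq0] at h1
  exact (Submodule.mem_bot E).2 h1.symm

/-! ### finite powers are semisimple -/

/-- the algebra generated by the operators -/
abbrev Ag (ρ : Γ → Module.End E V) : Subalgebra E (Module.End E V) := Algebra.adjoin E (Set.range ρ)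

/-- a generator -/
def gn (ρ : Γ → Module.End E V) (s : Γ) : Ag ρ := ⟨ρ s, Algebra.subset_adjoin ⟨s, rfl⟩⟩

section

variable {M : Type*} [AddCommGroup M] [Module E M] [Module (Ag ρ) M]

/-- stable subspaces are submodules -/
def toA (τ : Γ → Module.End E M) (h1 : ∀ s x, τ s x = gn ρ s • x)
    (h2 : ∀ (c : E) (x : M), c • x = (algebraMap E (Ag ρ) c) • x) (U : Submodule E M)
    (hU : ∀ s, ∀ x ∈ U, τ s x ∈ U) : Submodule (Ag ρ) M where
  carrier := U
  add_mem' := fun ha hb => U.add_mem ha hb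
  zero_mem' := U.zero_mem
  smul_mem' := by
    rintro ⟨a, ha⟩ x hx
    have key : ∀ (a : Module.End E V) (ha : a ∈ Ag ρ), ∀ x ∈ U, ((⟨a, ha⟩ : Ag ρ) • x) ∈ U := by
      intro a ha
      induction ha using Algebra.adjoin_induction with
      | mem a ha =>
        obtain ⟨s, rfl⟩ := ha
        intro x hx
        have := hU s x hx
        rw [h1] at this
        exact this
      | algebraMap c =>
        intro x hx
        have := U.smul_mem c hx
        rw [h2] at this
        exact this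
      | add a b ha hb iha ihb =>
        intro x hx
        have := U.add_mem (iha x hx) (ihb x hx)
        rw [← add_smul] at this
        exact this
      | mul a b ha hb iha ihb =>
        intro x hx
        have := iha _ (ihb x hx)
        rw [← mul_smul] at this
        exact this
    exact key a ha x hx

/-- submodules are subspaces -/
def frA (h2 : ∀ (c : E) (x : M), c • x = (algebraMap E (Ag ρ) c) • x) (U : Submodule (Ag ρ) M) :
    Submodule E M where
  carrier := U
  add_mem' := fun ha hb => U.add_mem ha hb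
  zero_mem' := U.zero_mem
  smul_mem' := fun c x hx => by
    rw [h2]
    exact U.smul_mem _ hx

lemma isCompl_iff' {R : Type*} [Ring R] {N : Type*} [AddCommGroup N] [Module R N]
    (U U' : Submodule R N) : IsCompl U U' ↔
      (∀ x ∈ U, x ∈ U' → x = 0) ∧ ∀ x, ∃ y ∈ U, ∃ z ∈ U', y + z = x := by
  constructor
  · intro h
    refine ⟨Submodule.disjoint_def.1 h.disjoint, fun x => ?_⟩
    have h1 : x ∈ U ⊔ U' := by rw [h.sup_eq_top]; trivial
    exact Submodule.mem_sup.1 h1
  · rintro ⟨h1, h2⟩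
    refine ⟨Submodule.disjoint_def.2 h1, ?_⟩
    rw [codisjoint_iff, eq_top_iff]
    intro x _
    exact Submodule.mem_sup.2 (h2 x)

lemma compl_of_ss (τ : Γ → Module.End E M) (h1 : ∀ s x, τ s x = gn ρ s • x)
    (h2 : ∀ (c : E) (x : M), c • x = (algebraMap E (Ag ρ) c) • x)
    (h : ∀ U : Submodule E M, (∀ s, ∀ x ∈ U, τ s x ∈ U) →
      ∃ U' : Submodule E M, (∀ s, ∀ x ∈ U', τ s x ∈ U') ∧ IsCompl U U') :
    IsSemisimpleModule (Ag ρ) M := by
  rw [isSemisimpleModule_iff]
  refine ⟨fun N => ?_⟩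
  obtain ⟨U', hU', hc⟩ := h (frA h2 N) (by
    intro s x hx
    rw [h1]
    exact N.smul_mem _ hx)
  refine ⟨toA τ h1 h2 U' hU', ?_⟩
  rw [isCompl_iff'] at hc ⊢
  exact hc

lemma ss_of_compl (τ : Γ → Module.End E M) (h1 : ∀ s x, τ s x = gn ρ s • x)
    (h2 : ∀ (c : E) (x : M), c • x = (algebraMap E (Ag ρ) c) • x)
    (h : IsSemisimpleModule (Ag ρ) M) :
    ∀ U : Submodule E M, (∀ s, ∀ x ∈ U, τ s x ∈ U) →
      ∃ U' : Submodule E M, (∀ s, ∀ x ∈ U', τ s x ∈ U') ∧ IsCompl U U' := by
  intro U hU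
  obtain ⟨N, hN⟩ := exists_isCompl (toA τ h1 h2 U hU)
  refine ⟨frA h2 N, ?_, ?_⟩
  · intro s x hx
    rw [h1]
    exact N.smul_mem _ hx
  · rw [isCompl_iff'] at hN ⊢
    exact hN

end

lemma pow_ss (hs : Ss ρ) (m : ℕ) : Ss (fun s => (ρ s).compLeft (Fin m)) := by
  have h : IsSemisimpleModule (Ag ρ) V :=
    compl_of_ss (ρ := ρ) ρ (fun _ _ => rfl) (fun _ _ => rfl) hs
  have h' : IsSemisimpleModule (Ag ρ) (Fin m → V) :=
    IsSemisimpleModule.congr (DFinsupp.linearEquivFunOnFintype (R := Ag ρ)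
      (M := fun _ : Fin m => V)).symm
  exact ss_of_compl (ρ := ρ) (fun s => (ρ s).compLeft (Fin m)) (fun _ _ => rfl)
    (fun _ _ => rfl) h'

/-! ### the theorem -/

variable {W : Type w} [AddCommGroup W] [Module E W]

/-- the bilinear map -/
noncomputable def bt (f : V →ₗ[E] W) (v : V) :
    Module.End E V →ₗ[E] Module.End E V →ₗ[E] ((V →ₗ[E] W) ⊗[E] V) :=
  LinearMap.mk₂ E (fun x y => (f ∘ₗ x) ⊗ₜ[E] (y v))
    (fun x x' y => by rw [LinearMap.comp_add, TensorProduct.add_tmul])
    (fun c x y => by rw [LinearMap.comp_smul, TensorProduct.smul_tmul'])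
    (fun x y y' => by rw [LinearMap.add_apply, TensorProduct.tmul_add])
    (fun c x y => by rw [LinearMap.smul_apply, TensorProduct.tmul_smul])

lemma bt_apply (f : V →ₗ[E] W) (v : V) (x y : Module.End E V) :
    bt f v x y = (f ∘ₗ x) ⊗ₜ[E] (y v) := rfl

end

theorem t_LA : Pool.Agent.U735.SO.S_LA := by
  intro E _ _ Γ V W _ _ _ _ _ ρ σ hs n g g' hg hg' hd
  have h : DB ρ n g g' := ⟨hg, hg', hd⟩
  have hcas : (∑ i, g i ∘ₗ g' i : Module.End E V) = cas g g' := rfl
  rw [hcas]
  refine ⟨?_, ?_, ?_, ?_⟩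
  · have h1 : Function.Injective (cas g g') := LinearMap.ker_eq_bot.1 (h.injective hs)
    exact ⟨h1, LinearMap.injective_iff_surjective.1 h1⟩
  · intro f v
    have e1 : ∀ i, ∑ j, ((f ∘ₗ g i) ∘ₗ g j) ⊗ₜ[E] (g' j (g' i v)) =
        ∑ j, (f ∘ₗ g j) ⊗ₜ[E] (g' j (g i (g' i v))) := by
      intro i
      exact h.casimir (bt f (g' i v)) (g i) (h.c1 i)
    rw [Finset.sum_congr rfl fun i _ => e1 i, Finset.sum_comm]
    apply Finset.sum_congr rfl
    intro j _
    rw [← TensorProduct.tmul_sum, ← map_sum]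
    congr 2
    unfold cas
    rw [LinearMap.sum_apply]
    rfl
  · intro f v
    apply Finset.sum_congr rfl
    intro j _
    congr 1
    exact LinearMap.congr_fun (h.central (g' j) (h.c2 j)) v
  · intro m f v hf hv
    let ρm : Γ → Module.End E (Fin m → V) := fun s => (ρ s).compLeft (Fin m)
    let F : (Fin m → V) →ₗ[E] W := ∑ k, f k ∘ₗ LinearMap.proj k
    have hFa : ∀ x, F x = ∑ k, f k (x k) := by
      intro x
      simp [F, LinearMap.sum_apply]
    have hst : ∀ s, ∀ x ∈ LinearMap.ker F, ρm s x ∈ LinearMap.ker F := by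
      intro s x hx
      rw [LinearMap.mem_ker, hFa] at hx ⊢
      have e1 : ∀ k, f k (ρm s x k) = σ s (f k (x k)) := by
        intro k
        exact (LinearMap.congr_fun (hf k s) (x k)).symm
      rw [Finset.sum_congr rfl fun k _ => e1 k, ← map_sum, hx, map_zero]
    obtain ⟨U', hU', hc⟩ := pow_ss hs m _ hst
    set P := (LinearMap.ker F).projection U' hc with hP
    have hPc : Cm ρm P := proj_cm hst hU' hc
    let Pe : Fin m → Fin m → Module.End E V := fun k l =>
      LinearMap.proj k ∘ₗ P ∘ₗ LinearMap.single E (fun _ : Fin m => V) l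
    have hPe : ∀ k l, Cm ρ (Pe k l) := by
      intro k l s
      ext x
      change ρ s (P (Pi.single l x) k) = P (Pi.single l (ρ s x)) k
      have e1 : (Pi.single l (ρ s x) : Fin m → V) = ρm s (Pi.single l x) := by
        funext k'
        change _ = ρ s ((Pi.single l x : Fin m → V) k')
        by_cases hk : k' = l
        · subst hk; simp
        · simp [Pi.single_eq_of_ne hk]
      rw [e1, ← hPc.apply]
      rfl
    have hv1 : ∀ k, v k = ∑ l, Pe k l (v l) := by
      intro k
      have e1 : P v = v := by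
        apply Submodule.projection_apply_of_mem_left hc
        rw [LinearMap.mem_ker, hFa]
        exact hv
      conv_lhs => rw [← e1]
      have e2 : v = ∑ l, Pi.single l (v l) := (Finset.univ_sum_single v).symm
      conv_lhs => rw [e2]
      rw [map_sum, Finset.sum_apply]
      rfl
    have hF0 : ∀ l, ∑ k, f k ∘ₗ Pe k l = 0 := by
      intro l
      ext x
      rw [LinearMap.sum_apply]
      change ∑ k, f k (P (Pi.single l x) k) = 0
      rw [← hFa]
      exact LinearMap.mem_ker.1 (Submodule.projection_apply_mem hc _)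
    have e1 : ∀ k, ∑ i, (f k ∘ₗ g i) ⊗ₜ[E] (g' i (v k)) =
        ∑ l, ∑ i, ((f k ∘ₗ Pe k l) ∘ₗ g i) ⊗ₜ[E] (g' i (v l)) := by
      intro k
      have e2 : ∀ l, ∑ i, ((f k ∘ₗ Pe k l) ∘ₗ g i) ⊗ₜ[E] (g' i (v l)) =
          ∑ i, (f k ∘ₗ g i) ⊗ₜ[E] (g' i (Pe k l (v l))) := by
        intro l
        exact h.casimir (bt (f k) (v l)) (Pe k l) (hPe k l)
      rw [Finset.sum_congr rfl fun l _ => e2 l, Finset.sum_comm]
      apply Finset.sum_congr rfl
      intro i _
      rw [← TensorProduct.tmul_sum, ← map_sum, ← hv1 k]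
    rw [Finset.sum_congr rfl fun k _ => e1 k, Finset.sum_comm]
    apply Finset.sum_eq_zero
    intro l _
    rw [Finset.sum_comm]
    apply Finset.sum_eq_zero
    intro i _
    rw [← TensorProduct.sum_tmul, ← sumComp, hF0, LinearMap.zero_comp, TensorProduct.zero_tmul]

end Pool.Agent.U603.SO
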